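import Pool.Agent.H26.LQ.Defs

set_option autoImplicit false

open MeasureTheory Set Filter Topology Metric

namespace Pool.Agent.H89.LQ

open Pool.Agent.H26.LQ Pool.Agent.H26.ZQ Pool.Agent.H26.MQ Pool.Agent.H26.ML

theorem norm_sinh_le (z : ℂ) : ‖Complex.sinh z‖ ≤ Real.cosh z.re := by
  rw [Complex.sinh, Real.cosh_eq, norm_div, Complex.norm_ofNat]
  have h : ‖Complex.exp z - Complex.exp (-z)‖ ≤ Real.exp z.re + Real.exp (-z.re) := by
    refine (norm_sub_le _ _).trans (le_of_eq ?_)
    rw [Complex.norm_exp, Complex.norm_exp, Complex.neg_re]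
  linarith

theorem re_sinh (z : ℂ) : (Complex.sinh z).re = Real.sinh z.re * Real.cos z.im := by
  have h : Complex.sinh z = (Complex.exp z - Complex.exp (-z)) / ((2 : ℝ) : ℂ) := by
    rw [Complex.sinh]; norm_num
  rw [h, Complex.div_ofReal_re, Complex.sub_re, Complex.exp_re, Complex.exp_re, Complex.neg_re,
    Complex.neg_im, Real.cos_neg, Real.sinh_eq]
  ring

theorem sinh_le_mul_cosh {t : ℝ} (ht : 0 ≤ t) : Real.sinh t ≤ t * Real.cosh t := by
  rcases ht.eq_or_lt with h | h
  · subst h; simp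
  · obtain ⟨c, hc, hc'⟩ := exists_hasDerivAt_eq_slope Real.sinh Real.cosh h
      Real.continuous_sinh.continuousOn (fun x _ => Real.hasDerivAt_sinh x)
    rw [Real.sinh_zero, sub_zero, sub_zero, eq_div_iff h.ne'] at hc'
    have h2 : Real.cosh c ≤ Real.cosh t := by
      rw [Real.cosh_le_cosh, abs_of_pos hc.1, abs_of_pos h]
      exact hc.2.le
    rw [← hc', mul_comm]
    exact mul_le_mul_of_nonneg_left h2 h.le

theorem re_mul (κ : ℝ) (z : ℂ) : ((κ : ℂ) * z).re = κ * z.re := by
  rw [Complex.re_ofReal_mul]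

theorem pf_zm5 (hZM2 : T_ZM2) : T_ZM5 := by
  intro κ σ hκ hσ
  refine ⟨?_, ?_, ?_⟩
  · intro w hw hn
    obtain ⟨h1, -, h3⟩ := (hZM2 κ w hκ).1 hw
    by_contra hlt
    rw [not_le] at hlt
    have h4 : ‖w‖ ≤ Real.cosh (κ * (zm κ w).re) := by
      have := norm_sinh_le (κ * zm κ w)
      rw [h3, re_mul] at this
      exact this
    have h5 : Real.cosh (κ * (zm κ w).re) < Real.cosh (κ * σ) := by
      rw [Real.cosh_lt_cosh, abs_of_nonneg (mul_nonneg hκ.le h1), abs_of_pos (mul_pos hκ hσ)]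
      exact mul_lt_mul_of_pos_left hlt hκ
    linarith
  · intro s hs
    have hinj : Function.Injective (fun u : ℝ => zm κ (u * Complex.I)) := by
      intro u v huv
      have hu : Complex.sinh (κ * zm κ (u * Complex.I)) = u * Complex.I :=
        ((hZM2 κ (u * Complex.I) hκ).1 (by simp)).2.2
      have hv : Complex.sinh (κ * zm κ (v * Complex.I)) = v * Complex.I :=
        ((hZM2 κ (v * Complex.I) hκ).1 (by simp)).2.2
      have huv' : zm κ (u * Complex.I) = zm κ (v * Complex.I) := huv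
      rw [huv', hv] at hu
      have := mul_right_cancel₀ Complex.I_ne_zero hu
      exact_mod_cast this.symm
    have hc : ((fun u : ℝ => zm κ (u * Complex.I)) ⁻¹' s).Countable := hs.preimage hinj
    exact hc.ae_notMem volume
  · intro z h0 h1 h2
    have hn := norm_sinh_le (κ * z)
    rw [re_mul] at hn
    have hcosh : Real.cosh (κ * z.re) ≤ Real.cosh (κ * σ) := by
      rw [Real.cosh_le_cosh, abs_of_pos (mul_pos hκ h0), abs_of_pos (mul_pos hκ hσ)]
      exact mul_le_mul_of_nonneg_left h1 hκ.le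
    refine ⟨?_, hn.trans hcosh⟩
    rw [re_sinh, re_mul]
    have hs : 0 ≤ Real.sinh (κ * z.re) := Real.sinh_nonneg_iff.2 (mul_pos hκ h0).le
    calc Real.sinh (κ * z.re) * Real.cos ((κ : ℂ) * z).im ≤ Real.sinh (κ * z.re) * 1 :=
          mul_le_mul_of_nonneg_left (Real.cos_le_one _) hs
      _ = Real.sinh (κ * z.re) := mul_one _
      _ ≤ κ * z.re * Real.cosh (κ * z.re) := sinh_le_mul_cosh (mul_pos hκ h0).le
      _ ≤ κ * z.re * Real.cosh (κ * σ) := mul_le_mul_of_nonneg_left hcosh (mul_pos hκ h0).le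
      _ = κ * Real.cosh (κ * σ) * z.re := by ring

end Pool.Agent.H89.LQ
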