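import Pool.Agent.H54.LQ.Targets

/-!
# Board lpq_modules, row BLE: the order of nodes is Borel
-/

set_option autoImplicit false

namespace Pool.Agent.H89.LQ

open Set Filter Topology Pool.Agent.H93.CP Pool.Agent.H7.LP Pool.Agent.H7.LQ Pool.Agent.H54.LQ

theorem ble_closed {G : Type} [Group G] [TopologicalSpace G] [IsTopologicalGroup G]
    (R' R : Subgroup G) (hR : IsClosed (R : Set G)) :
    IsClosed {a : G | ∀ g ∈ R', a⁻¹ * g * a ∈ R} := by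
  have h1 : {a : G | ∀ g ∈ R', a⁻¹ * g * a ∈ R} = ⋂ g ∈ R', {a : G | a⁻¹ * g * a ∈ R} := by
    ext a
    simp only [mem_ofPred_eq, mem_iInter]
  rw [h1]
  refine isClosed_biInter fun g _ => ?_
  have h2 : Continuous fun a : G => a⁻¹ * g * a := by fun_prop
  exact hR.preimage h2

theorem pf_BLE (h1 : T_KXA) (h2 : T_DOP) (h3 : T_DEL) (h4 : T_BKX) : T_BLE := by
  intro G X _ _ _ _ _ _ _ _ B L M _ Y k' m' k m
  obtain ⟨δ, hδm, hδs, hδd⟩ := h3 G X L M Y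
  have ha : Measurable fun p : X × G × G => p.2.1 * (p.2.2)⁻¹ :=
    (measurable_fst.comp measurable_snd).mul (measurable_snd.comp measurable_snd).inv
  -- the groups of level `k`
  have hR : MeasurableSet {p : X × G × G | ∀ g ∈ L.R k',
      (p.2.1 * (p.2.2)⁻¹)⁻¹ * g * (p.2.1 * (p.2.2)⁻¹) ∈ L.R k} :=
    ha (ble_closed (L.R k') (L.R k) (L.piece k).cl).measurableSet
  have hHc : IsClosed (L.H k : Set G) := Subgroup.isClosed_of_isOpen _ (L.piece k).op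
  have hH : MeasurableSet {p : X × G × G | ∀ g ∈ L.H k',
      (p.2.1 * (p.2.2)⁻¹)⁻¹ * g * (p.2.1 * (p.2.2)⁻¹) ∈ L.H k} :=
    ha (ble_closed (L.H k') (L.H k) hHc).measurableSet
  -- the groups of the nodes
  have hp1 : Measurable fun p : X × G × G => (p.1, p.2.1) :=
    measurable_fst.prodMk (measurable_fst.comp measurable_snd)
  have hp2 : Measurable fun p : X × G × G => (p.1, p.2.2) :=
    measurable_fst.prodMk (measurable_snd.comp measurable_snd)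
  have hd : ∀ n, Measurable fun p : X × G × G => δ k' n (p.1, p.2.1) := fun n =>
    (hδm k' n).comp hp1
  have hA : ∀ n, MeasurableSet {p : X × G × G |
      δ k' n (p.1, p.2.1) ∈ KX B L Y k' m' p.1 p.2.1} := by
    intro n
    have h5 : Measurable fun p : X × G × G => ((p.1, p.2.1), δ k' n (p.1, p.2.1)) :=
      hp1.prodMk (hd n)
    exact h5 (h4 G X B L M Y k' m')
  have hB : ∀ n, MeasurableSet {p : X × G × G |
      (p.2.1 * (p.2.2)⁻¹)⁻¹ * δ k' n (p.1, p.2.1) * (p.2.1 * (p.2.2)⁻¹) ∈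
        KX B L Y k m p.1 p.2.2} := by
    intro n
    have h5 : Measurable fun p : X × G × G => ((p.1, p.2.2),
        (p.2.1 * (p.2.2)⁻¹)⁻¹ * δ k' n (p.1, p.2.1) * (p.2.1 * (p.2.2)⁻¹)) :=
      hp2.prodMk ((ha.inv.mul (hd n)).mul ha)
    exact h5 (h4 G X B L M Y k m)
  have hK : MeasurableSet {p : X × G × G | ∀ g ∈ KX B L Y k' m' p.1 p.2.1,
      (p.2.1 * (p.2.2)⁻¹)⁻¹ * g * (p.2.1 * (p.2.2)⁻¹) ∈ KX B L Y k m p.1 p.2.2} := by
    have h5 : {p : X × G × G | ∀ g ∈ KX B L Y k' m' p.1 p.2.1,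
        (p.2.1 * (p.2.2)⁻¹)⁻¹ * g * (p.2.1 * (p.2.2)⁻¹) ∈ KX B L Y k m p.1 p.2.2} =
        ⋂ n, ({p : X × G × G | δ k' n (p.1, p.2.1) ∈ KX B L Y k' m' p.1 p.2.1}ᶜ ∪
          {p : X × G × G | (p.2.1 * (p.2.2)⁻¹)⁻¹ * δ k' n (p.1, p.2.1) *
            (p.2.1 * (p.2.2)⁻¹) ∈ KX B L Y k m p.1 p.2.2}) := by
      ext p
      rw [mem_iInter]
      constructor
      · intro h n
        by_cases h6 : δ k' n (p.1, p.2.1) ∈ KX B L Y k' m' p.1 p.2.1
        · exact Or.inr (h _ h6)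
        · exact Or.inl h6
      · intro h g hg
        by_contra hcon
        obtain ⟨-, hle, hop, -⟩ := (h1 G X B L M Y k' p.1 p.2.1).1 m'
        obtain ⟨-, -, -, hcl⟩ := (h1 G X B L M Y k p.1 p.2.2).1 m
        have h7 : Continuous fun a : G =>
            (p.2.1 * (p.2.2)⁻¹)⁻¹ * a * (p.2.1 * (p.2.2)⁻¹) := by fun_prop
        have h8 : {a : G | (p.2.1 * (p.2.2)⁻¹)⁻¹ * a * (p.2.1 * (p.2.2)⁻¹) ∉
            KX B L Y k m p.1 p.2.2} ∈ 𝓝 g :=
          (hcl.isOpen_compl.preimage h7).mem_nhds hcon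
        obtain ⟨n, hn1, hn2, -⟩ := h2 G (KX B L Y k' m' p.1 p.2.1) (KX B L Y k' m' p.1 p.2.1)
          (Stb (L.H k') (lb L Y k' p.1 p.2.1)) (fun n => δ k' n (p.1, p.2.1)) le_rfl hle hop
          (fun n => hδs k' n (p.1, p.2.1)) (hδd k' (p.1, p.2.1)) g hg _ h8
        rcases h n with h9 | h9
        · exact h9 hn1
        · exact hn2 h9
    rw [h5]
    exact MeasurableSet.iInter fun n => (hA n).compl.union (hB n)
  have hall : {p : X × G × G | Le B L Y p.1 (k', m', p.2.1) (k, m, p.2.2)} =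
      {p : X × G × G | ∀ g ∈ KX B L Y k' m' p.1 p.2.1,
        (p.2.1 * (p.2.2)⁻¹)⁻¹ * g * (p.2.1 * (p.2.2)⁻¹) ∈ KX B L Y k m p.1 p.2.2} ∩
      ({p : X × G × G | ∀ g ∈ L.R k',
        (p.2.1 * (p.2.2)⁻¹)⁻¹ * g * (p.2.1 * (p.2.2)⁻¹) ∈ L.R k} ∩
      {p : X × G × G | ∀ g ∈ L.H k',
        (p.2.1 * (p.2.2)⁻¹)⁻¹ * g * (p.2.1 * (p.2.2)⁻¹) ∈ L.H k}) := by
    ext p
    constructor
    · intro h
      exact ⟨h.mK, h.mR, h.mH⟩
    · rintro ⟨h5, h6, h7⟩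
      exact ⟨h5, h6, h7⟩
  rw [hall]
  exact hK.inter (hR.inter hH)

end Pool.Agent.H89.LQ
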